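import Pool.Agent.Y383.LD.Gap
import Pool.Agent.Y383.LD.Grp
import Pool.Agent.Y810.LD.Prod
import Pool.Agent.Y905.LD.Iff
import Pool.Agent.Y154.LD.QI
import Pool.Agent.Y343.LC.Main

/-!
Arbitrary quotients of spaces with vanishing `ℓ²`-cohomology in degree one.
-/

set_option autoImplicit false

namespace Pool.Agent.Y343.LD

open Pool.Agent.Y343.LC

noncomputable section

variable {V : Type}

/-- functions with finite energy are constant up to `ℓ²`: then closed square-summable cochains have
square-summable primitives -/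
theorem l2Prim_of_dirConst (K : Cx V) (H : Type) [Group H] [MulAction H V] (h1 : H1Zero K)
    (hD : DirConst K.graph) : L2Prim K H := by
  intro c hc hsq _
  obtain ⟨φ, hφ⟩ := h1 c hc
  obtain ⟨k, hk⟩ := hD φ (by
    have h2 : Summable fun p : {p : V × V // K.graph.Adj p.1 p.2} =>
        ‖c p.1.1 p.1.2‖ ^ 2 := hsq.comp_injective Subtype.val_injective
    refine h2.congr (fun p => ?_)
    rw [hφ p.1.1 p.1.2 p.2])
  refine ⟨fun v => φ v - k, hk, fun u v h => ?_⟩
  rw [hφ u v h]
  ring

/-- the `L²`-Betti numbers in the top two degrees from the vanishing of the compactly supported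
cohomology -/
theorem top_two (K : Cx V) (H : Type) [Group H] [MulAction H V] [Infinite H]
    (hA : ProperAction K H) (h : H1cTriv K H) (n : ℕ) (hD : DualL2 K H n) :
    ∀ j, n - 1 ≤ j → b2 H j = 0 := by
  intro j hj
  by_cases hjn : n ≤ j
  · rcases hjn.lt_or_eq with h' | h'
    · have := hD.above j h'
      exact L2dim_subsingleton _
    · subst h'
      obtain ⟨e⟩ := hD.top
      have : Subsingleton (HH H n) := e.toEquiv.subsingleton_congr.2 (h0c_zero K H hA)
      exact L2dim_subsingleton _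
  · have hj' : j = n - 1 := by omega
    subst hj'
    obtain ⟨_, e, -⟩ := hD.next
    have : Subsingleton (HH H (n - 1)) := e.toEquiv.subsingleton_congr.2 h
    exact L2dim_subsingleton _

/-- the functions with finite energy on the graphs of the three classes -/
theorem dirConst_of_like (X : SimpleGraph V) (hX : X.Connected) (hb : BddDegree X)
    (h : LikeGroup X ∨ LikeProduct X ∨ LikeLiouville X) : DirConst X := by
  rcases h with h | h | h
  · obtain ⟨Γ, _, S, hS, hH, hq⟩ := h
    obtain ⟨h1, h2, h3⟩ := Pool.Agent.Y383.LD.t_GRP Γ S hS hH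
    exact Pool.Agent.Y154.LD.t_QI V Γ X (Cay S) hX hb h1 h2 hq h3
  · obtain ⟨A, B, Y, Z, hY, hYb, hg, hZ, hZb, hB, hq⟩ := h
    exact Pool.Agent.Y154.LD.t_QI V (A × B) X (Y.boxProd Z) hX hb
      (SimpleGraph.Connected.boxProd hY hZ) (Pool.Agent.Y810.LD.t_DEG A B Y Z hYb hZb) hq
      (Pool.Agent.Y810.LD.t_PROD A B Y Z hY hg hZ hB)
  · obtain ⟨A, Y, hY, hYb, hg, hl, hq⟩ := h
    refine Pool.Agent.Y154.LD.t_QI V A X Y hX hb hY hYb hq
      (Pool.Agent.Y383.LD.t_GAP A Y hY ?_ hg hl)
    obtain ⟨D, hD⟩ := hYb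
    exact fun u => (hD u).1

/-- **Main theorem** -/
theorem main (K : Cx V) (H : Type) [Group H] [MulAction H V] [Infinite H]
    (hA : ProperAction K H) :
    (L2Prim K H ↔ H1cTriv K H) ∧
    (H1Zero K → BddDegree K.graph →
      (LikeGroup K.graph ∨ LikeProduct K.graph ∨ LikeLiouville K.graph) → L2Prim K H) ∧
    ∀ n : ℕ, DualL2 K H n → L2Prim K H → ∀ j, n - 1 ≤ j → b2 H j = 0 := by
  have t := Pool.Agent.Y905.LD.t_IFF V K H hA
  exact ⟨t, fun h1 hb h => l2Prim_of_dirConst K H h1 (dirConst_of_like K.graph hA.conn hb h),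
    fun n hD hP => top_two K H hA (t.1 hP) n hD⟩

end

end Pool.Agent.Y343.LD
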