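import Pool.Agent.Y343.LC.Stm

/-!
Square-summable cochains of a simplicial complex, functions with finite Dirichlet energy on a
graph, quasi-isometries.
-/

set_option autoImplicit false

namespace Pool.Agent.Y343.LD

open Pool.Agent.Y343.LC

noncomputable section

/-- `f` is square-summable -/
def Sq {X : Type} (f : X → ℂ) : Prop := Summable fun x => ‖f x‖ ^ 2

/-- Every closed square-summable `1`-cochain of `K` (with values in `ℂ`) whose support meets only
finitely many orbits of `H` is the coboundary of a square-summable function. -/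
def L2Prim {V : Type} (K : Cx V) (H : Type) [Group H] [MulAction H V] : Prop :=
  ∀ c : V → V → ℂ, Closed1 K c → (Sq fun p : V × V => c p.1 p.2) →
    (∃ F : Finset V, ∀ u v, c u v ≠ 0 → ∃ h : H, ∃ x ∈ F, u = h • x) →
    ∃ f : V → ℂ, Sq f ∧ IsD K f c

section

variable {V : Type} (X : SimpleGraph V)

/-- `φ` has finite Dirichlet energy: `∑ |φ(u) - φ(v)|² < ∞`, the sum over the edges `uv` of the
graph -/
def Dirichlet (φ : V → ℂ) : Prop :=
  Sq fun p : {p : V × V // X.Adj p.1 p.2} => φ p.1.2 - φ p.1.1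

/-- Each function with finite Dirichlet energy is the sum of a constant and a square-summable
function. -/
def DirConst : Prop := ∀ φ : V → ℂ, Dirichlet X φ → ∃ k : ℂ, Sq fun v => φ v - k

/-- spectral gap (nonamenability): `‖g‖² ≤ C ‖dg‖²` for the square-summable functions `g` with
finite Dirichlet energy -/
def Gap : Prop :=
  ∃ C : ℝ, ∀ g : V → ℂ, Sq g → Dirichlet X g →
    ∑' v, ‖g v‖ ^ 2 ≤ C * ∑' p : {p : V × V // X.Adj p.1 p.2}, ‖g p.1.2 - g p.1.1‖ ^ 2

/-- `φ` is harmonic (the graph is locally finite): `∑_{w ~ v} (φ(w) - φ(v)) = 0` for each `v` -/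
def Harmonic (φ : V → ℂ) : Prop := ∀ v, ∑ᶠ w ∈ {w | X.Adj v w}, (φ w - φ v) = 0

/-- The harmonic functions with finite Dirichlet energy are constant. -/
def Liouville : Prop := ∀ φ : V → ℂ, Dirichlet X φ → Harmonic X φ → ∀ u v, φ u = φ v

/-- all vertices have degree at most `D` for some `D` -/
def BddDegree : Prop := ∃ D : ℕ, ∀ u, {v | X.Adj u v}.Finite ∧ {v | X.Adj u v}.ncard ≤ D

end

/-- the Cayley graph of `Γ` with respect to `S` -/
def Cay {Γ : Type} [Group Γ] (S : Finset Γ) : SimpleGraph Γ where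
  Adj g h := g ≠ h ∧ (g⁻¹ * h ∈ S ∨ h⁻¹ * g ∈ S)
  symm := ⟨fun _ _ h => ⟨h.1.symm, h.2.symm⟩⟩
  loopless := ⟨fun _ h => h.1 rfl⟩

/-- a quasi-isometry between (the vertex sets of) two connected graphs, with a quasi-inverse -/
def QuasiIsometric {V W : Type} (X : SimpleGraph V) (Y : SimpleGraph W) : Prop :=
  ∃ (f : V → W) (g : W → V) (C : ℕ),
    (∀ u v, Y.dist (f u) (f v) ≤ C * X.dist u v + C) ∧
    (∀ a b, X.dist (g a) (g b) ≤ C * Y.dist a b + C) ∧
    (∀ v, X.dist (g (f v)) v ≤ C) ∧ ∀ a, Y.dist (f (g a)) a ≤ C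

/-- `X` is quasi-isometric to a finitely generated group `Γ` with `H¹(Γ; ℓ²Γ) = 0`. -/
def LikeGroup {V : Type} (X : SimpleGraph V) : Prop :=
  ∃ (Γ : Type) (_ : Group Γ) (S : Finset Γ), Subgroup.closure (S : Set Γ) = ⊤ ∧
    Subsingleton (HC Γ 1) ∧ QuasiIsometric X (Cay S)

/-- `X` is quasi-isometric to the product of two connected graphs of bounded degree, one of them
with a spectral gap, the other one infinite. -/
def LikeProduct {V : Type} (X : SimpleGraph V) : Prop :=
  ∃ (A B : Type) (Y : SimpleGraph A) (Z : SimpleGraph B), Y.Connected ∧ BddDegree Y ∧ Gap Y ∧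
    Z.Connected ∧ BddDegree Z ∧ Infinite B ∧ QuasiIsometric X (Y.boxProd Z)

/-- `X` is quasi-isometric to a connected graph of bounded degree with a spectral gap on which all
harmonic functions with finite Dirichlet energy are constant. -/
def LikeLiouville {V : Type} (X : SimpleGraph V) : Prop :=
  ∃ (A : Type) (Y : SimpleGraph A), Y.Connected ∧ BddDegree Y ∧ Gap Y ∧ Liouville Y ∧
    QuasiIsometric X Y

/-- (i) injectivity of `H¹_c(K / H; ℓ²H) → ℓ²H¹(K)`, and a characterization of the vanishing -/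
def StmIff : Prop :=
  ∀ (V : Type) (K : Cx V) (H : Type) [Group H] [MulAction H V] [Infinite H],
    ProperAction K H → (L2Prim K H ↔ H1cTriv K H)

/-- (ii) invariance under quasi-isometries -/
def StmQI : Prop :=
  ∀ (V W : Type) (X : SimpleGraph V) (Y : SimpleGraph W), X.Connected → BddDegree X →
    Y.Connected → BddDegree Y → QuasiIsometric X Y → DirConst Y → DirConst X

/-- (iii) groups -/
def StmGrp : Prop :=
  ∀ (Γ : Type) [Group Γ] (S : Finset Γ), Subgroup.closure (S : Set Γ) = ⊤ →
    Subsingleton (HC Γ 1) → (Cay S).Connected ∧ BddDegree (Cay S) ∧ DirConst (Cay S)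

/-- (iv) the analytic criterion -/
def StmGap : Prop :=
  ∀ (V : Type) (X : SimpleGraph V), X.Connected → (∀ u, {v | X.Adj u v}.Finite) →
    Gap X → Liouville X → DirConst X

/-- (v) products -/
def StmProd : Prop :=
  ∀ (A B : Type) (Y : SimpleGraph A) (Z : SimpleGraph B), Y.Connected → Gap Y → Z.Connected →
    Infinite B → DirConst (Y.boxProd Z)

/-- (vi) products have bounded degree -/
def StmDeg : Prop :=
  ∀ (A B : Type) (Y : SimpleGraph A) (Z : SimpleGraph B), BddDegree Y → BddDegree Z →
    BddDegree (Y.boxProd Z)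

end

end Pool.Agent.Y343.LD
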